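import Mathlib

/-! # A counterexample to the Nordhaus-Gaddum inequality for independent mp colourings -/

set_option maxRecDepth 100000

namespace Pool.Agent.Results.MP_691331_co.MonophonicCounterexample

variable {V : Type*}

/-- An induced path of `G`: a path such that every edge of `G` joining two of its vertices is an
edge of the path, i.e. its vertex set induces a path. -/
def IsInducedPath {G : SimpleGraph V} {u v : V} (p : G.Walk u v) : Prop :=
  p.IsPath ∧ ∀ x ∈ p.support, ∀ y ∈ p.support, G.Adj x y → s(x, y) ∈ p.edges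

/-- `X` is in monophonic position in `G`: for distinct `u, v ∈ X`, every induced `u,v`-path meets
`X` only in `u` and `v`. -/
def MonophonicPosition (G : SimpleGraph V) (X : Set V) : Prop :=
  ∀ u ∈ X, ∀ v ∈ X, u ≠ v → ∀ p : G.Walk u v, IsInducedPath p →
    ∀ w ∈ p.support, w ∈ X → w = u ∨ w = v

/-- The least number of classes of a partition of the vertex set into independent sets in
monophonic position. -/
noncomputable def chiMp (G : SimpleGraph V) : ℕ :=
  sInf {k : ℕ | ∃ c : V → Fin k, ∀ i, G.IsIndepSet {v | c v = i} ∧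
    MonophonicPosition G {v | c v = i}}

/-- The edges of a vertex list. -/
def listEdges {V : Type*} : List V → List (Sym2 V)
  | [] => []
  | [_] => []
  | a :: b :: l => s(a, b) :: listEdges (b :: l)

/-- Consecutive vertices are adjacent. -/
def chainOK {V : Type*} (G : SimpleGraph V) : List V → Prop
  | [] => True
  | [_] => True
  | a :: b :: l => G.Adj a b ∧ chainOK G (b :: l)

theorem exists_walk (G : SimpleGraph V) : ∀ (l : List V) (a : V), chainOK G (a :: l) →
    ∃ p : G.Walk a ((a :: l).getLast (List.cons_ne_nil _ _)),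
      p.support = a :: l ∧ p.edges = listEdges (a :: l)
  | [], a, _ => ⟨SimpleGraph.Walk.nil, rfl, rfl⟩
  | b :: l, a, h => by
    obtain ⟨p, hp, he⟩ := exists_walk G l b h.2
    have hl : (a :: b :: l).getLast (List.cons_ne_nil _ _) =
        (b :: l).getLast (List.cons_ne_nil _ _) := List.getLast_cons _
    rw [hl]
    exact ⟨SimpleGraph.Walk.cons h.1 p, by simp [hp], by simp [he, listEdges]⟩

/-- A list of vertices that describes an induced path. -/
def pathOK (G : SimpleGraph V) (l : List V) : Prop :=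
  chainOK G l ∧ l.Nodup ∧ ∀ x ∈ l, ∀ y ∈ l, G.Adj x y → s(x, y) ∈ listEdges l

theorem not_mp_of_path (G : SimpleGraph V) (X : Set V) (a : V) (l : List V)
    (h : pathOK G (a :: l)) (w : V) (hw : w ∈ a :: l) (hwa : w ≠ a)
    (hwl : w ≠ (a :: l).getLast (List.cons_ne_nil _ _))
    (ha : a ∈ X) (hl : (a :: l).getLast (List.cons_ne_nil _ _) ∈ X) (hwX : w ∈ X)
    (hne : a ≠ (a :: l).getLast (List.cons_ne_nil _ _)) : ¬ MonophonicPosition G X := by
  intro hX
  obtain ⟨p, hp, he⟩ := exists_walk G l a h.1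
  have hind : IsInducedPath p := by
    refine ⟨(SimpleGraph.Walk.isPath_def p).2 (by rw [hp]; exact h.2.1), ?_⟩
    rw [hp, he]
    exact h.2.2
  rcases hX a ha _ hl hne p hind w (by rw [hp]; exact hw) hwX with h' | h'
  · exact hwa h'
  · exact hwl h'

/-- Adjacency of the counterexample, as a packed list of the neighbourhoods. -/
def nb : List ℕ :=
  [5632, 6400, 2304, 768, 3584, 4864, 3072, 5120, 2094, 57, 209, 342, 163]

/-- Boolean adjacency. -/
def adjB (u v : Fin 13) : Bool := (nb.getD u.val 0).testBit v.val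

/-- The graph with the 21 edges 0-9 0-10 0-12 1-8 1-11 1-12 2-8 2-11 3-8 3-9 4-9 4-10 4-11 5-8 5-9
5-12 6-10 6-11 7-10 7-12 8-11. -/
def G : SimpleGraph (Fin 13) where
  Adj u v := adjB u v = true
  symm := ⟨by decide⟩
  loopless := ⟨by decide⟩

instance : DecidableRel G.Adj := fun u v => by unfold G; infer_instance

/-- Certificates: induced paths. -/
def paths : List (List (Fin 13)) :=
  [[2, 11, 6, 10, 7, 12, 5, 9, 3],
   [2, 8, 1, 12, 7, 10, 4, 9],
   [3, 9, 5, 12, 1, 11, 6, 10],
   [6, 10, 4, 9, 3, 8, 1, 12],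
   [6, 11, 8, 3, 9, 0, 12, 7],
   [1, 8, 3, 9, 0, 10, 6],
   [1, 8, 3, 9, 0, 10, 7],
   [1, 11, 6, 10, 0, 9, 5],
   [2, 8, 1, 12, 0, 9, 4],
   [2, 8, 1, 12, 0, 10, 6],
   [2, 8, 5, 9, 4, 10, 6],
   [2, 11, 4, 10, 0, 12, 5],
   [3, 8, 1, 12, 0, 10, 4],
   [4, 9, 3, 8, 1, 12, 7],
   [7, 10, 0, 9, 3, 8, 11],
   [8, 1, 12, 7, 10, 4, 9],
   [9, 5, 12, 1, 11, 6, 10],
   [0, 9, 3, 8, 11, 6],
   [0, 10, 4, 11, 8, 5],
   [2, 8, 1, 12, 0, 10],
   [3, 9, 0, 12, 1, 11],
   [4, 9, 0, 12, 1, 8],
   [5, 8, 11, 4, 10, 7],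
   [6, 10, 4, 9, 3, 8],
   [10, 0, 12, 5, 8, 11],
   [2, 8, 5, 9, 0, 10, 7],
   [2, 11, 1, 12, 0, 9, 3],
   [6, 11, 4, 9, 5, 12, 7],
   [0, 9, 3, 8, 1],
   [0, 9, 4, 11, 1],
   [0, 9, 4, 11, 6],
   [0, 12, 1, 8, 2],
   [0, 12, 5, 8, 3],
   [1, 8, 5, 9, 4],
   [1, 11, 6, 10, 7],
   [1, 12, 5, 9, 3],
   [2, 8, 1, 12, 7],
   [2, 8, 3, 9, 4],
   [2, 11, 1, 12, 5],
   [2, 11, 4, 10, 7],
   [2, 11, 6, 10, 7],
   [3, 8, 5, 12, 7],
   [3, 9, 0, 10, 7],
   [3, 9, 4, 10, 6],
   [4, 9, 0, 12, 7],
   [5, 9, 0, 10, 6],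
   [5, 9, 0, 10, 7],
   [5, 9, 4, 10, 6],
   [8, 1, 12, 0, 10],
   [9, 0, 12, 1, 11],
   [3, 9, 5, 12, 1, 11],
   [7, 10, 0, 9, 3, 8],
   [1, 8, 3, 9, 4, 10, 6],
   [1, 8, 5, 9, 0, 10, 7],
   [3, 8, 5, 12, 0, 10, 4],
   [3, 8, 5, 12, 0, 10, 6]]

instance (l : List (Fin 13)) : Decidable (chainOK G l) := by
  induction l with
  | nil => exact isTrue trivial
  | cons a l ih =>
    cases l with
    | nil => exact isTrue trivial
    | cons b l => exact @instDecidableAnd _ _ _ ih

instance (l : List (Fin 13)) : Decidable (pathOK G l) := by unfold pathOK; infer_instance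

theorem paths_ok : ∀ l ∈ paths, pathOK G l := by decide +kernel

/-- Every independent triple is covered: some path of the list has two of its vertices as ends and
passes through the third one. -/
theorem triples_ok : ∀ u v w : Fin 13, u < v → v < w → adjB u v = false →
    adjB u w = false → adjB v w = false →
    ∃ l ∈ paths, ∃ x ∈ [u, v, w], ∃ y ∈ [u, v, w], ∃ z ∈ [u, v, w], x ≠ y ∧ z ≠ x ∧ z ≠ y ∧
      l.head? = some x ∧ l.getLast? = some y ∧ z ∈ l := by decide +kernel

theorem no_triple' {X : Set (Fin 13)} (hi : G.IsIndepSet X) (hX : MonophonicPosition G X)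
    {u v w : Fin 13} (hu : u ∈ X) (hv : v ∈ X) (hw : w ∈ X) (huv : u < v)
    (hvw : v < w) : False := by
  have h1 : adjB u v = false := by
    have := hi hu hv huv.ne; simpa [G] using this
  have h2 : adjB u w = false := by
    have := hi hu hw (huv.trans hvw).ne; simpa [G] using this
  have h3 : adjB v w = false := by
    have := hi hv hw hvw.ne; simpa [G] using this
  obtain ⟨l, hl, x, hx, y, hy, z, hz, hxy, hzx, hzy, hh, hlast, hzl⟩ :=
    triples_ok u v w huv hvw h1 h2 h3
  have hmem : ∀ t ∈ [u, v, w], t ∈ X := by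
    intro t ht
    simp only [List.mem_cons, List.not_mem_nil, or_false] at ht
    rcases ht with rfl | rfl | rfl <;> assumption
  have hp := paths_ok l hl
  cases l with
  | nil => simp at hh
  | cons a l =>
    have ha : a = x := by simpa using hh
    subst ha
    have hy' : (a :: l).getLast (List.cons_ne_nil _ _) = y := by
      rw [List.getLast?_eq_some_getLast (List.cons_ne_nil _ _)] at hlast
      exact Option.some.inj hlast
    exact not_mp_of_path G X a l hp z hzl hzx (by rw [hy']; exact hzy) (hmem a hx)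
      (by rw [hy']; exact hmem y hy) (hmem z hz) (by rw [hy']; exact hxy) hX

theorem no_triple {X : Set (Fin 13)} (hi : G.IsIndepSet X) (hX : MonophonicPosition G X)
    {u v w : Fin 13} (hu : u ∈ X) (hv : v ∈ X) (hw : w ∈ X) (huv : u ≠ v) (huw : u ≠ w)
    (hvw : v ≠ w) : False := by
  rcases lt_or_gt_of_ne huv with h1 | h1 <;> rcases lt_or_gt_of_ne huw with h2 | h2 <;>
    rcases lt_or_gt_of_ne hvw with h3 | h3
  · exact no_triple' hi hX hu hv hw h1 h3
  · exact no_triple' hi hX hu hw hv h2 h3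
  · exact absurd (h1.trans h3) (lt_asymm h2)
  · exact no_triple' hi hX hw hu hv h2 h1
  · exact no_triple' hi hX hv hu hw h1 h2
  · exact absurd (h2.trans h3) (lt_asymm h1)
  · exact no_triple' hi hX hv hw hu h3 h2
  · exact no_triple' hi hX hw hv hu h3 h1

theorem chi_nonempty (H : SimpleGraph (Fin 13)) : {k : ℕ | ∃ c : Fin 13 → Fin k,
    ∀ i, H.IsIndepSet {v | c v = i} ∧ MonophonicPosition H {v | c v = i}}.Nonempty := by
  refine ⟨13, id, fun i => ⟨?_, ?_⟩⟩
  · intro x hx y hy hxy
    simp only [id, Set.mem_ofPred_eq] at hx hy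
    exact absurd (hx.trans hy.symm) hxy
  · intro u hu v hv huv
    simp only [id, Set.mem_ofPred_eq] at hu hv
    exact absurd (hu.trans hv.symm) huv

theorem seven_le : 7 ≤ chiMp G := by
  refine le_csInf (chi_nonempty G) ?_
  rintro k ⟨c, hc⟩
  by_contra hk
  have hk' : k ≤ 6 := by omega
  obtain ⟨i, hi⟩ := Fintype.exists_lt_card_fiber_of_mul_lt_card (f := c) (n := 2)
    (by simp; omega)
  obtain ⟨a, b, d, ha, hb, hd, hab, had, hbd⟩ := Finset.two_lt_card_iff.1 hi
  simp only [Finset.mem_filter, Finset.mem_univ, true_and] at ha hb hd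
  exact no_triple (hc i).1 (hc i).2 ha hb hd hab had hbd

theorem eight_le : 8 ≤ chiMp Gᶜ := by
  refine le_csInf (chi_nonempty Gᶜ) ?_
  rintro k ⟨c, hc⟩
  have hind : ∀ a b : Fin 8, a ≠ b → adjB (Fin.castLE (by norm_num) a)
      (Fin.castLE (by norm_num) b) = false := by decide
  have hinj : Function.Injective (fun a : Fin 8 => c (Fin.castLE (by norm_num) a)) := by
    intro a b hab
    by_contra hne
    have hne' : (Fin.castLE (by norm_num) a : Fin 13) ≠ Fin.castLE (by norm_num) b := by
      intro h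
      exact hne (Fin.castLE_injective _ h)
    have := (hc (c (Fin.castLE (by norm_num) b))).1 (x := Fin.castLE (by norm_num) a) hab
      (y := Fin.castLE (by norm_num) b) rfl hne'
    apply this
    rw [SimpleGraph.compl_adj]
    refine ⟨hne', ?_⟩
    have h := hind a b hne
    simp [G, h]
  simpa using Fintype.card_le_of_injective _ hinj

/-- There is a graph `G` on `13` vertices for which the independent mp chromatic numbers of `G` and
of its complement add up to at least `13 + 2`. -/
theorem result : ∃ G : SimpleGraph (Fin 13), 13 + 2 ≤ chiMp G + chiMp Gᶜ :=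
  ⟨G, by have := seven_le; have := eight_le; omega⟩

end Pool.Agent.Results.MP_691331_co.MonophonicCounterexample
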